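import Mathlib
import Pool.Agent.T9h86.Geproci.Final

/-!
# Infinitely many projective classes of nontrivial `(4,6)`-geproci sets (Q1: yes)

Let `Z c` be the twelve points `[1,0,0,s]` and `[1,a,2a²s,-s]` with `a³ = 1`, `s³ = c`: a projective
copy of the `D₄` configuration, with three points on each of four skew lines; `Z c` and `Z d` are
exchanged by a torus fixing the two transversals of the four lines pointwise.  For `c ≠ d`, both
nonzero, the general projection of the 24 points `Z c ∪ Z d` is the transversal intersection of the
four image lines with the union of two cubics.  The set is neither in a plane nor on a quadric, so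
it is nontrivial, and the cross ratio of four of the six points on a line varies with `d / c`.

Definitions (file `Pool/Agent/T9h86/Geproci/Defs.lean`): `projImage`, `IsReducedCI`, `IsGeproci`,
`IsGrid`, `IsDegenerate`, `IsNontrivialGeproci`, `ProjEquiv`, `geprociSetoid`.
-/

namespace Pool.Agent.Results.MP_e29873_ag.UncountableClasses

open Pool.Agent.T9h86.Geproci

/-- The nontrivial `(4,6)`-geproci sets in `ℙ³` form uncountably (in particular infinitely) many
projective equivalence classes. -/
theorem result : Uncountable (Quotient (geprociSetoid 4 6)) := uncountable_classes

end Pool.Agent.Results.MP_e29873_ag.UncountableClasses
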